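import Pool.Agent.Q91.PT.Stm3
import Pool.Agent.H739K.RATIO

/-!
# Project PT, job CVX: approximate logarithmic convexity for general weights
-/

set_option autoImplicit false

namespace Pool.Agent.Q299.PT.CVX

open Finset Pool.Agent.H976R2 Pool.Agent.H976R2.Lip Pool.Agent.H739K Pool.Agent.H739K.RATIO
open Pool.Agent.Q91.PT
open scoped Classical

/-- the condition on the weight -/
def Nc (n : ℕ) (φ : List Dir → ℝ) : Prop :=
  ∀ w : List Dir, n ≤ w.length → w.length ≤ n + 4 → Saw w → sq w = 1 → 0 ≤ φ w ∧ φ w ≤ 1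

lemma P_mem {n : ℕ} {φ : List Dir → ℝ} (h : Nc n φ) {w : List Dir} (h1 : n ≤ w.length)
    (h2 : w.length ≤ n + 4) (hs : Saw w) : 0 ≤ P φ w ∧ P φ w ≤ 1 := by
  unfold P
  split_ifs with hc
  · exact h w h1 h2 hs hc
  · exact ⟨le_rfl, zero_le_one⟩

/-- the local change of the weight -/
noncomputable def dd (φ : List Dir → ℝ) (w : List Dir) : ℝ :=
  if sq w = 1 then ∑ p ∈ adm w, |φ (ins w p.1 p.2) - φ w| else 0

lemma dd_nonneg (φ : List Dir → ℝ) (w : List Dir) : 0 ≤ dd φ w := by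
  unfold dd
  split_ifs
  · exact Finset.sum_nonneg (fun _ _ => abs_nonneg _)
  · exact le_rfl

lemma sum_dd (φ : List Dir → ℝ) (n : ℕ) : ∑ w ∈ SW n, dd φ w = DE φ n := by
  unfold dd DE KP
  rw [Finset.sum_filter]

lemma DE_nonneg (φ : List Dir → ℝ) (n : ℕ) : 0 ≤ DE φ n := by
  rw [← sum_dd]
  exact Finset.sum_nonneg (fun w _ => dd_nonneg φ w)

lemma P_sum (φ : List Dir → ℝ) (w : List Dir) :
    ∑ p ∈ adm w, |P φ (ins w p.1 p.2) - P φ w| ≤ dd φ w := by
  unfold dd
  split_ifs with hc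
  · refine le_of_eq (Finset.sum_congr rfl (fun p hp => ?_))
    have hi := (mem_adm.mp (show (p.1, p.2) ∈ adm w from hp)).1
    unfold P
    rw [sq_ins p.2 hi, if_pos hc, if_pos hc]
  · refine le_of_eq (Finset.sum_eq_zero (fun p hp => ?_))
    have hi := (mem_adm.mp (show (p.1, p.2) ∈ adm w from hp)).1
    unfold P
    rw [sq_ins p.2 hi, if_neg hc, if_neg hc]; simp

/-- first step -/
theorem step1 (n : ℕ) (φ : List Dir → ℝ) (m : ℕ) (hn : 3 ≤ n) (hφ : Nc n φ)
    (hm : m = n ∨ m = n + 2) :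
    |mm φ (m + 2) - ∑ w ∈ SW m, P φ w * RR w| ≤
      2000 / m * DE φ m + 50000000 / m * mm φ m + (few (m + 2)).card := by
  have hm3 : 3 ≤ m := by omega
  have h := transfer' m (by omega) (P φ) (P φ) (dd φ) (fun w _ => P_sum φ w)
  rw [sum_P] at h
  refine h.trans ?_
  have h1 : ∑ w ∈ SW m, (2000 / (m : ℝ) * dd φ w + 50000000 / (m : ℝ) * |P φ w|) =
      2000 / m * DE φ m + 50000000 / m * mm φ m := by
    rw [← sum_P φ m, ← sum_dd, Finset.sum_add_distrib, ← Finset.mul_sum, ← Finset.mul_sum]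
    congr 2
    refine Finset.sum_congr rfl (fun w hw => ?_)
    obtain ⟨hl, hs⟩ := mem_SW.mp hw
    rw [abs_of_nonneg (P_mem hφ (by omega) (by omega) hs).1]
  have h2 : ∑ w' ∈ few (m + 2), |P φ w'| ≤ (few (m + 2)).card := by
    refine (Finset.sum_le_sum (g := fun _ => (1 : ℝ)) (fun w' hw' => ?_)).trans (by simp)
    have hw'' : w' ∈ SW (m + 2) := (Finset.mem_filter.mp hw').1
    obtain ⟨hl, hs⟩ := mem_SW.mp hw''
    have h3 := P_mem hφ (w := w') (by omega) (by omega) hs
    rw [abs_of_nonneg h3.1]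
    exact h3.2
  rw [h1]
  linarith

/-- second step -/
theorem step2 (n : ℕ) (φ : List Dir → ℝ) (hn : 3 ≤ n) (hφ : Nc n φ) :
    |∑ w ∈ SW (n + 2), P φ w * RR w - ∑ w ∈ SW n, P φ w * RR w ^ 2| ≤
      8000000 / n * DE φ n + 400000000000 / n * mm φ n + 4000 * (few (n + 2)).card := by
  have hn' : (3 : ℝ) ≤ n := by exact_mod_cast hn
  have hPn : ∀ m : ℕ, n ≤ m → m ≤ n + 4 → ∀ w ∈ SW m, 0 ≤ P φ w ∧ P φ w ≤ 1 := fun m h1 h2 w hw => by
    obtain ⟨hl, hs⟩ := mem_SW.mp hw
    exact P_mem hφ (by omega) (by omega) hs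
  have h := transfer' n (by omega) (fun w => P φ w * RR w) (fun w => P φ w * RR w)
    (fun w => 4000 * dd φ w + 100000000 * P φ w) (by
    intro w hw
    obtain ⟨hl, hs⟩ := mem_SW.mp hw
    have hP0 := (hPn n le_rfl (by omega) w hw).1
    have h1 : ∑ p ∈ adm w, |P φ (ins w p.1 p.2) * RR (ins w p.1 p.2) - P φ w * RR w| ≤
        ∑ p ∈ adm w, (4000 * |P φ (ins w p.1 p.2) - P φ w| + P φ w * (50000000 / (n : ℝ))) := by
      refine Finset.sum_le_sum (fun p hp => ?_)
      have hp' : (p.1, p.2) ∈ adm w := hp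
      have hi := (mem_adm.mp hp').1
      have hR := RR_ins hs hp'
      rw [hl] at hR
      have hR2 := RR_le (w := ins w p.1 p.2) (by rw [length_ins p.2 hi]; omega)
      have hR0 := RR_nonneg (ins w p.1 p.2)
      have e : P φ (ins w p.1 p.2) * RR (ins w p.1 p.2) - P φ w * RR w =
          RR (ins w p.1 p.2) * (P φ (ins w p.1 p.2) - P φ w) +
            P φ w * (RR (ins w p.1 p.2) - RR w) := by
        ring
      rw [e]
      refine (abs_add_le _ _).trans ?_
      rw [abs_mul, abs_mul, abs_of_nonneg hR0, abs_of_nonneg hP0]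
      gcongr
    refine h1.trans ?_
    rw [Finset.sum_add_distrib, ← Finset.mul_sum, Finset.sum_const, nsmul_eq_mul]
    have h2 := P_sum φ w
    have h6 : ((adm w).card : ℝ) ≤ 2 * n := by
      have : (AA w : ℝ) ≤ 2 * w.length := by exact_mod_cast AA_le w
      rw [hl] at this
      exact this
    calc 4000 * ∑ p ∈ adm w, |P φ (ins w p.1 p.2) - P φ w| +
          ((adm w).card : ℝ) * (P φ w * (50000000 / (n : ℝ)))
        ≤ 4000 * dd φ w + (2 * n) * (P φ w * (50000000 / (n : ℝ))) := by gcongr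
      _ = 4000 * dd φ w + 100000000 * P φ w := by field_simp; ring)
  have e0 : ∑ w ∈ SW n, P φ w * RR w * RR w = ∑ w ∈ SW n, P φ w * RR w ^ 2 :=
    Finset.sum_congr rfl (fun w _ => by ring)
  rw [e0] at h
  refine h.trans ?_
  have h1 : ∑ w ∈ SW n, (2000 / (n : ℝ) * (4000 * dd φ w + 100000000 * P φ w) +
      50000000 / (n : ℝ) * |P φ w * RR w|) ≤
      8000000 / n * DE φ n + 400000000000 / n * mm φ n := by
    rw [← sum_P φ n, ← sum_dd, Finset.mul_sum, Finset.mul_sum, ← Finset.sum_add_distrib]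
    refine Finset.sum_le_sum (fun w hw => ?_)
    have h0 := (hPn n le_rfl (by omega) w hw).1
    rw [abs_mul, abs_of_nonneg h0, abs_of_nonneg (RR_nonneg w)]
    have hR := RR_le (w := w) (by rw [(mem_SW.mp hw).1]; omega)
    calc 2000 / (n : ℝ) * (4000 * dd φ w + 100000000 * P φ w) + 50000000 / (n : ℝ) * (P φ w * RR w)
        ≤ 2000 / (n : ℝ) * (4000 * dd φ w + 100000000 * P φ w) +
          50000000 / (n : ℝ) * (P φ w * 4000) := by gcongr
      _ = 8000000 / (n : ℝ) * dd φ w + 400000000000 / (n : ℝ) * P φ w := by ring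
  have h2 : ∑ w' ∈ few (n + 2), |P φ w' * RR w'| ≤ 4000 * (few (n + 2)).card := by
    refine (Finset.sum_le_sum (g := fun _ => (4000 : ℝ)) (fun w' hw' => ?_)).trans
      (by rw [Finset.sum_const, nsmul_eq_mul, mul_comm])
    have hw'' : w' ∈ SW (n + 2) := (Finset.mem_filter.mp hw').1
    obtain ⟨hl, hs⟩ := mem_SW.mp hw''
    have h0 := hPn (n + 2) (by omega) (by omega) w' hw''
    rw [abs_mul, abs_of_nonneg h0.1, abs_of_nonneg (RR_nonneg w')]
    have hR := RR_le (w := w') (by rw [hl]; omega)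
    calc P φ w' * RR w' ≤ 1 * 4000 := by
          gcongr
          · exact RR_nonneg w'
          · exact h0.2
      _ = 4000 := by norm_num
  linarith

theorem S1_le (n : ℕ) (φ : List Dir → ℝ) (hn : 3 ≤ n) (hφ : Nc n φ) :
    ∑ w ∈ SW n, P φ w * RR w ≤ 4000 * mm φ n := by
  rw [← sum_P φ n, Finset.mul_sum]
  refine Finset.sum_le_sum (fun w hw => ?_)
  obtain ⟨hl, hs⟩ := mem_SW.mp hw
  have h0 := (P_mem hφ (w := w) (by omega) (by omega) hs).1
  have hR := RR_le (w := w) (by rw [hl]; omega)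
  nlinarith

theorem t (hb : S_bnd) : S_cvx := by
  obtain ⟨Df, hDf, hfew⟩ := few_small hb
  refine ⟨1000000000000 ^ 2 + 1000000000000 * 8002 + Df, by positivity, fun n hn hodd => ?_⟩
  have hn' : (3 : ℝ) ≤ n := by exact_mod_cast hn
  have hn0 : (0 : ℝ) < n := by linarith
  constructor
  · have hφ : Nc n (fun _ => (1 : ℝ)) := fun _ _ _ _ _ => ⟨zero_le_one, le_rfl⟩
    have h1 := step1 n (fun _ => 1) n hn hφ (Or.inl rfl)
    have h2 := S1_le n (fun _ => 1) hn hφ
    have e1 : ∀ m : ℕ, mm (fun _ => (1 : ℝ)) m = (KP m).card := fun m => by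
      unfold mm; simp
    have e2 : DE (fun _ => (1 : ℝ)) n = 0 := by
      unfold DE; simp
    rw [e1, e1, e2] at h1
    rw [e1] at h2
    have h3 := hfew n hn hodd
    have h4 : ((few (n + 2)).card : ℝ) ≤ Df * (KP n).card := by
      have h5 : (1 : ℝ) ≤ 100 * ((n : ℝ) + 5) ^ 3 := by
        have : (1 : ℝ) ≤ ((n : ℝ) + 5) ^ 3 := one_le_pow₀ (by linarith)
        linarith
      have h6 : Df / n * ((KP n).card : ℝ) ≤ Df * (KP n).card := by
        gcongr
        exact div_le_self hDf.le (by linarith)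
      have h7 : (0 : ℝ) ≤ (few (n + 2)).card := by positivity
      nlinarith
    have h5 : (50000000 : ℝ) / n * (KP n).card ≤ 50000000 * (KP n).card := by
      gcongr
      exact div_le_self (by norm_num) (by linarith)
    have h6 := (abs_le.mp h1).2
    have h7 : (0 : ℝ) ≤ (KP n).card := by positivity
    nlinarith
  · intro φ Er hφ hEr
    have hPn : ∀ w ∈ SW n, 0 ≤ P φ w := fun w hw => by
      obtain ⟨hl, hs⟩ := mem_SW.mp hw
      exact (P_mem hφ (by omega) (by omega) hs).1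
    have hPn' : ∀ m : ℕ, n ≤ m → m ≤ n + 4 → 0 ≤ mm φ m := fun m h1 h2 => by
      rw [← sum_P]
      refine Finset.sum_nonneg (fun w hw => ?_)
      obtain ⟨hl, hs⟩ := mem_SW.mp hw
      exact (P_mem hφ (by omega) (by omega) hs).1
    have hM0 : 0 ≤ mm φ n := hPn' n le_rfl (by omega)
    have hM2 : 0 ≤ mm φ (n + 2) := hPn' _ (by omega) (by omega)
    set S1 := ∑ w ∈ SW n, P φ w * RR w with hS1
    set S2 := ∑ w ∈ SW n, P φ w * RR w ^ 2 with hS2
    have hS1le : S1 ≤ 4000 * mm φ n := S1_le n φ hn hφ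
    have hS10 : 0 ≤ S1 := Finset.sum_nonneg (fun w hw => mul_nonneg (hPn w hw) (RR_nonneg w))
    have g1 := step1 n φ n hn hφ (Or.inl rfl)
    have g3 := step1 n φ (n + 2) hn hφ (Or.inr rfl)
    have g2 := step2 n φ hn hφ
    have e24 : n + 2 + 2 = n + 4 := by ring
    rw [e24] at g3
    have a1 : 0 ≤ DE φ n / n := div_nonneg (DE_nonneg _ _) hn0.le
    have a2 : 0 ≤ DE φ (n + 2) / n := div_nonneg (DE_nonneg _ _) hn0.le
    have a3 : 0 ≤ mm φ n / n := div_nonneg hM0 hn0.le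
    have a4 : 0 ≤ mm φ (n + 2) / n := div_nonneg hM2 hn0.le
    have a5 : (0 : ℝ) ≤ (few (n + 2)).card := by positivity
    have a6 : (0 : ℝ) ≤ (few (n + 4)).card := by positivity
    have hE : Er = DE φ n / n + DE φ (n + 2) / n + mm φ n / n + mm φ (n + 2) / n +
        (few (n + 2)).card + (few (n + 4)).card := by rw [hEr]; ring
    have hE0 : 0 ≤ Er := by rw [hE]; positivity
    have b1 : mm φ (n + 2) ≤ S1 + 1000000000000 * Er := by
      have h1 := (abs_le.mp g1).2
      have e1 : 2000 / (n : ℝ) * DE φ n = 2000 * (DE φ n / n) := by ring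
      have e2 : 50000000 / (n : ℝ) * mm φ n = 50000000 * (mm φ n / n) := by ring
      rw [e1, e2] at h1
      rw [hE]; linarith
    have b3 : ∑ w ∈ SW (n + 2), P φ w * RR w ≤ mm φ (n + 4) + 50000000 * Er := by
      have h1 := (abs_le.mp g3).1
      have e1 : 2000 / ((n + 2 : ℕ) : ℝ) * DE φ (n + 2) ≤ 2000 * (DE φ (n + 2) / n) := by
        rw [div_mul_eq_mul_div, ← mul_div_assoc]
        exact div_le_div_of_nonneg_left (mul_nonneg (by norm_num) (DE_nonneg _ _)) hn0
          (by push_cast; linarith)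
      have e2 : 50000000 / ((n + 2 : ℕ) : ℝ) * mm φ (n + 2) ≤ 50000000 * (mm φ (n + 2) / n) := by
        rw [div_mul_eq_mul_div, ← mul_div_assoc]
        exact div_le_div_of_nonneg_left (mul_nonneg (by norm_num) hM2) hn0
          (by push_cast; linarith)
      rw [hE]; linarith
    have b2 : S2 ≤ ∑ w ∈ SW (n + 2), P φ w * RR w + 400000000000 * Er := by
      have h1 := (abs_le.mp g2).1
      have e1 : 8000000 / (n : ℝ) * DE φ n = 8000000 * (DE φ n / n) := by ring
      have e2 : 400000000000 / (n : ℝ) * mm φ n = 400000000000 * (mm φ n / n) := by ring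
      rw [e1, e2] at h1
      rw [hE]; linarith
    have hcs : S1 ^ 2 ≤ mm φ n * S2 := by
      have := Finset.sum_mul_sq_le_sq_mul_sq (SW n) (fun w => Real.sqrt (P φ w))
        (fun w => Real.sqrt (P φ w) * RR w)
      have e1 : ∑ w ∈ SW n, Real.sqrt (P φ w) * (Real.sqrt (P φ w) * RR w) = S1 := by
        refine Finset.sum_congr rfl (fun w hw => ?_)
        rw [← mul_assoc, Real.mul_self_sqrt (hPn w hw)]
      have e2 : ∑ w ∈ SW n, Real.sqrt (P φ w) ^ 2 = mm φ n := by
        rw [← sum_P]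
        refine Finset.sum_congr rfl (fun w hw => ?_)
        rw [Real.sq_sqrt (hPn w hw)]
      have e3 : ∑ w ∈ SW n, (Real.sqrt (P φ w) * RR w) ^ 2 = S2 := by
        refine Finset.sum_congr rfl (fun w hw => ?_)
        rw [mul_pow, Real.sq_sqrt (hPn w hw)]
      rw [e1, e2, e3] at this
      exact this
    have b4 : S2 ≤ mm φ (n + 4) + 1000000000000 * Er := by linarith
    have k2 : mm φ (n + 2) ^ 2 ≤ (S1 + 1000000000000 * Er) ^ 2 := by gcongr
    have k3 : mm φ n * S2 ≤ mm φ n * (mm φ (n + 4) + 1000000000000 * Er) := by gcongr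
    have k4 : S1 * Er ≤ 4000 * mm φ n * Er := by gcongr
    have k5 : 0 ≤ mm φ n * Er := mul_nonneg hM0 hE0
    have k6 : 0 ≤ Er * Er := mul_nonneg hE0 hE0
    have k7 : 0 ≤ Df * (mm φ n * Er) := mul_nonneg hDf.le k5
    have k8 : 0 ≤ Df * (Er * Er) := mul_nonneg hDf.le k6
    nlinarith

end Pool.Agent.Q299.PT.CVX
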