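import Pool.Agent.Q299.PT.DEL
import Pool.Agent.Q299.PT.CVX

/-!
# Project PT, job LOC: local logarithmic convexity in the perimeter at a fixed area
-/

set_option autoImplicit false

namespace Pool.Agent.Q299.PT.LOC

open Finset Pool.Agent.H976R2 Pool.Agent.H976R2.Lip Pool.Agent.H739K Pool.Agent.H739K.RATIO
open Pool.Agent.Q91.PT Pool.Agent.Q299.PT.DEL
open scoped Classical

/-- words with few bumps are exponentially few -/
theorem few_exp (hb : S_bnd) : ∃ D s : ℝ, 0 < D ∧ 0 < s ∧ ∀ n : ℕ, 3 ≤ n → n % 2 = 1 →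
    ((few (n + 2)).card : ℝ) + (few (n + 4)).card ≤ D / n * (Real.exp (-s * n) * (KP n).card) := by
  obtain ⟨C, hC, h1⟩ := Few.few_card
  obtain ⟨hmu, K, hK, h2⟩ := hb
  set q : ℝ := 2.428 / 2.43 with hq
  have hq0 : 0 < q := by rw [hq]; norm_num
  have hq1 : q < 1 := by rw [hq]; norm_num
  have hlq : Real.log q < 0 := Real.log_neg hq0 hq1
  set s : ℝ := -(Real.log q) / 2 with hs
  have hs0 : 0 < s := div_pos (neg_pos.mpr hlq) two_pos
  have hr : q * Real.exp s < 1 := by
    have h3 : q * Real.exp s = Real.exp (Real.log q / 2) := by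
      nth_rewrite 1 [← Real.exp_log hq0]
      rw [← Real.exp_add, hs]; congr 1; ring
    rw [h3, Real.exp_lt_one_iff]
    linarith
  obtain ⟨B, hB0, hB⟩ := bounded K hK (q * Real.exp s) (by positivity) hr
  refine ⟨C * (2.428 ^ 2 + 2.428 ^ 4) * B, s, by positivity, hs0, fun n hn hodd => ?_⟩
  have hn' : (3 : ℝ) ≤ n := by exact_mod_cast hn
  have h3 := h1 (n + 2)
  have h3' := h1 (n + 4)
  have h4 := (h2 n hn hodd).1
  have h5 := hB n
  have hmu0 : 0 < H981.mu := by linarith
  have h7 : (2.43 : ℝ) ^ n ≤ H981.mu ^ n := pow_le_pow_left₀ (by norm_num) hmu n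
  have h8 : (n : ℝ) ^ 4 * 2.428 ^ n ≤ B * (Real.exp (-s * n) * (KP n).card) := by
    have e : (n : ℝ) ^ 4 * (q * Real.exp s) ^ n * Real.exp (K * (Real.log n) ^ 9) =
        (n : ℝ) ^ 4 * 2.428 ^ n /
          (Real.exp (-s * n) * (2.43 ^ n * Real.exp (-(K * (Real.log n) ^ 9)))) := by
      rw [Real.exp_neg, mul_pow, hq, div_pow, ← Real.exp_nat_mul, neg_mul, Real.exp_neg,
        mul_comm (n : ℝ) s]
      field_simp
    rw [e, div_le_iff₀ (by positivity)] at h5
    refine h5.trans ?_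
    gcongr
    refine le_trans ?_ h4
    gcongr
  have h9 : (n : ℝ) * 2.428 ^ n ≤ (n : ℝ) ^ 4 * 2.428 ^ n := by
    gcongr
    calc (n : ℝ) = (n : ℝ) ^ 1 := (pow_one _).symm
      _ ≤ (n : ℝ) ^ 4 := pow_le_pow_right₀ (by linarith) (by norm_num)
  rw [div_mul_eq_mul_div, le_div_iff₀ (by linarith)]
  calc (((few (n + 2)).card : ℝ) + (few (n + 4)).card) * n
      ≤ (C * 2.428 ^ (n + 2) + C * 2.428 ^ (n + 4)) * n := by gcongr
    _ = C * (2.428 ^ 2 + 2.428 ^ 4) * (n * 2.428 ^ n) := by ring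
    _ ≤ C * (2.428 ^ 2 + 2.428 ^ 4) * (B * (Real.exp (-s * n) * (KP n).card)) := by
        gcongr C * (2.428 ^ 2 + 2.428 ^ 4) * ?_
        exact h9.trans h8
    _ = _ := by ring

/-- the entropy factor at a truncated value -/
lemma trunc {m x M L : ℝ} (hm : 0 ≤ m) (hx : 0 ≤ x) (hxM : x ≤ M) (hM : 0 < M) (hL : 1 ≤ L) :
    x * Real.sqrt (m * Real.log (2 * M / x)) ≤
      (x + Real.exp (-L) * M) * Real.sqrt (m * (2 * L)) := by
  have hE : 0 < Real.exp (-L) := Real.exp_pos _
  have hE1 : Real.exp (-L) ≤ 1 := Real.exp_le_one_iff.mpr (by linarith)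
  rcases eq_or_lt_of_le hx with h0 | h0
  · rw [← h0]
    have : 0 ≤ Real.exp (-L) * M * Real.sqrt (m * (2 * L)) := by positivity
    linarith
  · have h1 : x * Real.sqrt (m * Real.log (2 * M / x)) ≤
        max x (Real.exp (-L) * M) * Real.sqrt (m * Real.log (2 * M / max x (Real.exp (-L) * M))) := by
      apply mono hm h0 (le_max_left _ _)
      apply max_le hxM
      nlinarith
    refine h1.trans ?_
    have h2 : max x (Real.exp (-L) * M) ≤ x + Real.exp (-L) * M := by
      apply max_le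
      · have : 0 ≤ Real.exp (-L) * M := by positivity
        linarith
      · linarith
    have h3 : 0 < max x (Real.exp (-L) * M) := lt_of_lt_of_le h0 (le_max_left _ _)
    have h4 : Real.log (2 * M / max x (Real.exp (-L) * M)) ≤ 2 * L := by
      have h5 : 2 * M / max x (Real.exp (-L) * M) ≤ 2 * Real.exp L := by
        rw [div_le_iff₀ h3]
        have h6 : Real.exp (-L) * M ≤ max x (Real.exp (-L) * M) := le_max_right _ _
        calc 2 * M = 2 * Real.exp L * (Real.exp (-L) * M) := by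
              have : Real.exp L * Real.exp (-L) = 1 := by rw [← Real.exp_add]; simp
              linear_combination (-2 * M) * this
          _ ≤ _ := by gcongr
      have h7 := Real.log_le_log (by positivity) h5
      rw [Real.log_mul (by norm_num) (Real.exp_pos _).ne', Real.log_exp] at h7
      have := Real.log_two_lt_d9
      linarith
    gcongr

lemma sq_fac {n L : ℝ} (hn : 0 < n) (_hL : 0 ≤ L) :
    Real.sqrt (2 * n * (2 * L)) = 2 * n * Real.sqrt (L / n) := by
  rw [show 2 * n * (2 * L) = (2 * n) ^ 2 * (L / n) by field_simp, Real.sqrt_mul (by positivity),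
    Real.sqrt_sq (by positivity)]

theorem t (hdel : S_del) (hcvx : S_cvx) (hphs : S_phs) (hb : S_bnd) : S_loc := by
  obtain ⟨Cd, cd, hCd, hcd, hD⟩ := hdel
  obtain ⟨D, hDp, hV⟩ := hcvx
  obtain ⟨Cf, s, hCf, hs, hfew⟩ := few_exp hb
  set C3 : ℝ := Cd * 3 + Cd * (4 * (1 + D)) + 1 + Cf with hC3
  have hC3p : 0 < C3 := by positivity
  refine ⟨D * ((1 + C3) * C3), min (min cd s) 1, by positivity, by positivity,
    fun n hn hodd a L hL hLn => ?_⟩
  have hn' : (3 : ℝ) ≤ n := by exact_mod_cast hn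
  have hn0 : (0 : ℝ) < n := by linarith
  have hL0 : 0 < L := by linarith
  have hLcd : L ≤ cd * n := hLn.trans (by
    gcongr; exact (min_le_left _ _).trans (min_le_left _ _))
  have hLs : L ≤ s * n := hLn.trans (by
    gcongr; exact (min_le_left _ _).trans (min_le_right _ _))
  have hL1 : L ≤ n := by
    have : L ≤ 1 * n := hLn.trans (by gcongr; exact min_le_right _ _)
    linarith
  obtain ⟨hMM, hV⟩ := hV n hn hodd
  set M : ℝ := ((KP n).card : ℝ) with hM
  set M' : ℝ := ((KP (n + 2)).card : ℝ) with hM'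
  have hMpos : 0 < M := by
    obtain ⟨hmu, K, hK, h2⟩ := hb
    have h3 := (h2 n hn hodd).1
    have hmu0 : 0 < H981.mu := by linarith
    exact lt_of_lt_of_le (by positivity) h3
  have hM'pos : 0 < M' := by
    obtain ⟨hmu, K, hK, h2⟩ := hb
    have h3 := (h2 (n + 2) (by omega) (by omega)).1
    have hmu0 : 0 < H981.mu := by linarith
    exact lt_of_lt_of_le (by positivity) h3
  have e0 : mm (ph a) n = Nn n a := (hphs n hn a).1
  have e2 : mm (ph a) (n + 2) = Nn (n + 2) a := (hphs (n + 2) (by omega) a).1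
  have e4 : mm (ph a) (n + 4) = Nn (n + 4) a := (hphs (n + 4) (by omega) a).1
  have hN0 : 0 ≤ Nn n a := Nn_nonneg
  have hN2 : 0 ≤ Nn (n + 2) a := Nn_nonneg
  have hNM : Nn n a ≤ M := Nn_le
  have hNM' : Nn (n + 2) a ≤ M' := Nn_le
  have hE : 0 < Real.exp (-L) := Real.exp_pos _
  set Q : ℝ := Nn n a + Nn (n + 2) a + Real.exp (-L) * M with hQ
  have hQ0 : 0 ≤ Q := by positivity
  set r : ℝ := Real.sqrt (L / n) with hr
  have hr0 : 0 < r := Real.sqrt_pos.mpr (by positivity)
  have hr1 : r ≤ 1 := by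
    rw [hr, Real.sqrt_le_one]
    rw [div_le_one hn0]; exact hL1
  have hrn : 1 / n ≤ r := by
    rw [hr]
    apply Real.le_sqrt_of_sq_le
    rw [div_pow, one_pow]
    rw [div_le_div_iff₀ (by positivity) hn0]
    nlinarith
  have hV' := hV (ph a) _ (fun w _ _ _ _ => ⟨ph_nonneg a w, ph_le_one a w⟩) rfl
  rw [e0, e2, e4] at hV'
  set Er : ℝ := (DE (ph a) n + DE (ph a) (n + 2) + Nn n a + Nn (n + 2) a) / n +
    (few (n + 2)).card + (few (n + 4)).card with hEr
  have hDE0 := CVX.DE_nonneg (ph a) n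
  have hDE2 := CVX.DE_nonneg (ph a) (n + 2)
  have hEr0 : 0 ≤ Er := by positivity
  -- the change at length n
  have d1 : DE (ph a) n ≤ Cd * 3 * (n * r * Q) := by
    refine (hD n hn hodd a).trans ?_
    have k1 : Nn n a * Real.sqrt (n * Real.log (2 * M / Nn n a)) ≤ 2 * (n * r * Q) := by
      refine (trunc hn0.le hN0 hNM hMpos hL).trans ?_
      have k2 : Real.sqrt (n * (2 * L)) ≤ 2 * n * r := by
        rw [hr, ← sq_fac hn0 hL0.le]
        apply Real.sqrt_le_sqrt
        nlinarith
      calc (Nn n a + Real.exp (-L) * M) * Real.sqrt (n * (2 * L)) ≤ Q * (2 * n * r) := by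
            gcongr
            rw [hQ]; linarith
        _ = _ := by ring
    have k3 : Real.exp (-cd * n) * M ≤ n * r * Q := by
      have k4 : Real.exp (-cd * n) ≤ Real.exp (-L) := by
        apply Real.exp_le_exp.mpr; linarith
      have k5 : 1 ≤ n * r := by
        have : 1 / (n : ℝ) * n ≤ r * n := by gcongr
        rw [one_div, inv_mul_cancel₀ hn0.ne'] at this
        linarith
      calc Real.exp (-cd * n) * M ≤ Real.exp (-L) * M := by gcongr
        _ ≤ Q := by rw [hQ]; linarith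
        _ = 1 * Q := (one_mul _).symm
        _ ≤ _ := by gcongr
    calc _ ≤ Cd * (2 * (n * r * Q) + n * r * Q) := by gcongr
      _ = _ := by ring
  have hMMQ : Real.exp (-L) * M' ≤ D * (Real.exp (-L) * M) := by
    calc Real.exp (-L) * M' ≤ Real.exp (-L) * (D * M) := by gcongr
      _ = _ := by ring
  have hQ' : Nn (n + 2) a + Real.exp (-L) * M' ≤ (1 + D) * Q := by
    have k1 : 0 ≤ D * Nn n a := by positivity
    have k2 : 0 ≤ D * Nn (n + 2) a := by positivity
    have k3 : 0 ≤ Real.exp (-L) * M := by positivity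
    rw [hQ]; nlinarith
  have d2 : DE (ph a) (n + 2) ≤ Cd * (4 * (1 + D)) * (n * r * Q) := by
    refine (hD (n + 2) (by omega) (by omega) a).trans ?_
    have hn2 : (((n + 2 : ℕ)) : ℝ) ≤ 2 * n := by push_cast; linarith
    have k1 : Nn (n + 2) a * Real.sqrt (((n + 2 : ℕ) : ℝ) * Real.log (2 * M' / Nn (n + 2) a)) ≤
        2 * (1 + D) * (n * r * Q) := by
      refine (trunc (by positivity) hN2 hNM' hM'pos hL).trans ?_
      have k2 : Real.sqrt (((n + 2 : ℕ) : ℝ) * (2 * L)) ≤ 2 * n * r := by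
        rw [hr, ← sq_fac hn0 hL0.le]
        apply Real.sqrt_le_sqrt
        gcongr
      calc (Nn (n + 2) a + Real.exp (-L) * M') * Real.sqrt (((n + 2 : ℕ) : ℝ) * (2 * L))
          ≤ ((1 + D) * Q) * (2 * n * r) := by gcongr
        _ = _ := by ring
    have k3 : Real.exp (-cd * ((n + 2 : ℕ) : ℝ)) * M' ≤ 2 * (1 + D) * (n * r * Q) := by
      have k4 : Real.exp (-cd * ((n + 2 : ℕ) : ℝ)) ≤ Real.exp (-L) := by
        apply Real.exp_le_exp.mpr; push_cast; nlinarith
      have k5 : 1 ≤ n * r := by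
        have : 1 / (n : ℝ) * n ≤ r * n := by gcongr
        rw [one_div, inv_mul_cancel₀ hn0.ne'] at this
        linarith
      calc Real.exp (-cd * ((n + 2 : ℕ) : ℝ)) * M' ≤ Real.exp (-L) * M' := by gcongr
        _ ≤ (1 + D) * Q := by linarith
        _ = (1 + D) * (1 * Q) := by ring
        _ ≤ (1 + D) * (n * r * Q) := by gcongr
        _ ≤ 2 * (1 + D) * (n * r * Q) := by
            have : 0 ≤ (1 + D) * (n * r * Q) := by positivity
            linarith
    calc _ ≤ Cd * (2 * (1 + D) * (n * r * Q) + 2 * (1 + D) * (n * r * Q)) := by gcongr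
      _ = _ := by ring
  have d3 : ((few (n + 2)).card : ℝ) + (few (n + 4)).card ≤ Cf * (r * Q) := by
    refine (hfew n hn hodd).trans ?_
    have k4 : Real.exp (-s * n) ≤ Real.exp (-L) := by
      apply Real.exp_le_exp.mpr; linarith
    calc Cf / n * (Real.exp (-s * n) * M) = Cf * (1 / n * (Real.exp (-s * n) * M)) := by ring
      _ ≤ Cf * (r * (Real.exp (-L) * M)) := by gcongr
      _ ≤ Cf * (r * Q) := by
          gcongr
          rw [hQ]; linarith
  have hErQ : Er ≤ C3 * (r * Q) := by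
    have k1 : (DE (ph a) n + DE (ph a) (n + 2) + Nn n a + Nn (n + 2) a) / n ≤
        (Cd * 3 + Cd * (4 * (1 + D)) + 1) * (r * Q) := by
      have k2 : (Nn n a + Nn (n + 2) a) / n ≤ r * Q := by
        calc (Nn n a + Nn (n + 2) a) / n = 1 / n * (Nn n a + Nn (n + 2) a) := by ring
          _ ≤ r * Q := by
            gcongr
            rw [hQ]
            have : 0 ≤ Real.exp (-L) * M := by positivity
            linarith
      calc _ = (DE (ph a) n + DE (ph a) (n + 2)) / n + (Nn n a + Nn (n + 2) a) / n := by ring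
        _ ≤ (Cd * 3 * (n * r * Q) + Cd * (4 * (1 + D)) * (n * r * Q)) / n + r * Q := by gcongr
        _ = _ := by field_simp
    rw [hC3]
    rw [hEr]
    linarith
  calc Nn (n + 2) a ^ 2 ≤ Nn n a * Nn (n + 4) a + D * (Nn n a + Er) * Er := hV'
    _ ≤ Nn n a * Nn (n + 4) a + D * (Q + C3 * (1 * Q)) * (C3 * (r * Q)) := by
        have k1 : Nn n a ≤ Q := by
          rw [hQ]
          have : 0 ≤ Real.exp (-L) * M := by positivity
          linarith
        have k2 : Er ≤ C3 * (1 * Q) := hErQ.trans (by gcongr)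
        gcongr
    _ = _ := by ring

end Pool.Agent.Q299.PT.LOC
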