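import Pool.Agent.Q91.PT.Stm3

/-!
# Project PT, job DEL: the change of the averaged area indicator under insertions
-/

set_option autoImplicit false

namespace Pool.Agent.Q299.PT.DEL

open Finset Pool.Agent.H976R2 Pool.Agent.H976R2.Lip Pool.Agent.H739K
open Pool.Agent.Q91.PT
open scoped Classical

lemma bn_nonneg (K : ℕ) (j : ℤ) : 0 ≤ bn K j := by
  unfold bn
  split_ifs <;> positivity

lemma bn_le_one (K : ℕ) (j : ℤ) : bn K j ≤ 1 := by
  unfold bn
  split_ifs
  · rw [div_le_one (by positivity)]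
    exact_mod_cast Nat.choose_le_two_pow K j.toNat
  · exact zero_le_one

lemma ph_nonneg (a : ℤ) (w : List Dir) : 0 ≤ ph a w := bn_nonneg _ _

lemma ph_le_one (a : ℤ) (w : List Dir) : ph a w ≤ 1 := bn_le_one _ _

lemma abs_sub_le_one {x y : ℝ} (hx : 0 ≤ x) (hx1 : x ≤ 1) (hy : 0 ≤ y) (hy1 : y ≤ 1) :
    |x - y| ≤ 1 := by
  rw [abs_le]; constructor <;> linarith

/-- `x √(n log (2 M / x))` is increasing on `(0, M]` -/
lemma mono {n y x M : ℝ} (hn : 0 ≤ n) (hy : 0 < y) (hyx : y ≤ x) (hxM : x ≤ M) :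
    y * Real.sqrt (n * Real.log (2 * M / y)) ≤ x * Real.sqrt (n * Real.log (2 * M / x)) := by
  have hx : 0 < x := by linarith
  have hM : 0 < M := by linarith
  have e : ∀ z : ℝ, 0 ≤ z → ∀ A : ℝ, z * Real.sqrt A = Real.sqrt (z ^ 2 * A) := by
    intro z hz A
    rw [Real.sqrt_mul (sq_nonneg z), Real.sqrt_sq hz]
  rw [e y hy.le, e x hx.le]
  apply Real.sqrt_le_sqrt
  have h1 : Real.log (2 * M / y) = Real.log (2 * M / x) + Real.log (x / y) := by
    rw [← Real.log_mul (by positivity) (by positivity)]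
    congr 1; field_simp
  have hr : 1 ≤ x / y := by rw [le_div_iff₀ hy]; linarith
  have h2 : Real.log (x / y) ≤ x / y - 1 := by
    have := Real.log_le_sub_one_of_pos (show 0 < x / y by positivity)
    linarith
  have h3 : 1 / 2 ≤ Real.log (2 * M / x) := by
    have h4 : (2 : ℝ) ≤ 2 * M / x := by rw [le_div_iff₀ hx]; linarith
    have h5 := Real.log_le_log (by norm_num) h4
    have := Real.log_two_gt_d9
    linarith
  have h6 : Real.log (x / y) ≤ ((x / y) ^ 2 - 1) * Real.log (2 * M / x) := by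
    have h7 : x / y - 1 ≤ ((x / y) ^ 2 - 1) * (1 / 2) := by nlinarith
    have h8 : ((x / y) ^ 2 - 1) * (1 / 2) ≤ ((x / y) ^ 2 - 1) * Real.log (2 * M / x) := by
      apply mul_le_mul_of_nonneg_left h3
      nlinarith
    linarith
  have h9 : y ^ 2 * Real.log (2 * M / y) ≤ x ^ 2 * Real.log (2 * M / x) := by
    rw [h1]
    have h10 : x ^ 2 = y ^ 2 * (x / y) ^ 2 := by field_simp
    have h11 : y ^ 2 * (Real.log (2 * M / x) + Real.log (x / y)) ≤
        y ^ 2 * ((x / y) ^ 2 * Real.log (2 * M / x)) := by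
      apply mul_le_mul_of_nonneg_left _ (sq_nonneg y)
      linarith
    rw [h10, mul_assoc]
    exact h11
  nlinarith

/-- `n e^{-s n} ≤ (2/s) e^{-(s/2) n}` -/
lemma nexp {s : ℝ} (hs : 0 < s) (n : ℕ) :
    (n : ℝ) * Real.exp (-s * n) ≤ 2 / s * Real.exp (-(s / 2) * n) := by
  have h1 : s / 2 * n ≤ Real.exp (s / 2 * n) := by
    have := Real.add_one_le_exp (s / 2 * (n : ℝ)); linarith
  have h2 : (n : ℝ) ≤ 2 / s * Real.exp (s / 2 * n) := by
    have h3 : (n : ℝ) = 2 / s * (s / 2 * n) := by field_simp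
    calc (n : ℝ) = 2 / s * (s / 2 * n) := h3
      _ ≤ _ := by gcongr
  calc (n : ℝ) * Real.exp (-s * n) ≤ 2 / s * Real.exp (s / 2 * n) * Real.exp (-s * n) := by gcongr
    _ = 2 / s * Real.exp (-(s / 2) * n) := by
        rw [mul_assoc, ← Real.exp_add]; congr 2; ring

lemma mem_XB {n : ℕ} {B : Set (ℕ × ℕ)} {κ : ℝ} {w : List Dir} :
    w ∈ XB n B κ ↔ w ∈ KP n ∧ dims w ∈ B ∧ κ ≤ ((Fl w).card : ℝ) := by
  unfold XB
  rw [Finset.mem_filter]

lemma card_le_NB {n : ℕ} {B : Set (ℕ × ℕ)} {a : ℤ} (Y : Finset (List Dir))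
    (h : ∀ w ∈ Y, w ∈ KP n ∧ dims w ∈ B ∧ (ar w : ℤ) = a) : (Y.card : ℝ) ≤ NB n B a := by
  unfold NB
  have : Y ⊆ (KP n).filter (fun w => dims w ∈ B ∧ (ar w : ℤ) = a) := fun w hw =>
    Finset.mem_filter.mpr (h w hw)
  exact_mod_cast Finset.card_le_card this

lemma NB_le {n : ℕ} {B : Set (ℕ × ℕ)} {a : ℤ} : NB n B a ≤ (KP n).card := by
  unfold NB
  exact_mod_cast Finset.card_le_card (Finset.filter_subset _ _)

lemma NB_nonneg {n : ℕ} {B : Set (ℕ × ℕ)} {a : ℤ} : 0 ≤ NB n B a := by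
  unfold NB; positivity

lemma Nn_le {n : ℕ} {a : ℤ} : Nn n a ≤ (KP n).card := NB_le

lemma Nn_nonneg {n : ℕ} {a : ℤ} : 0 ≤ Nn n a := NB_nonneg

/-- one word with many flippable corners -/
lemma word (C1 c1 ε : ℝ) (hC1 : 0 < C1) (hc1 : 0 < c1) (hins : S_ins)
    (hB : ∀ (K K' : ℕ) (j j' : ℤ), 1 ≤ K →
      |(K' : ℤ) - K| ≤ 10 → |j' - j| ≤ 20 →
      |bn K' j' - bn K j| ≤ C1 * bn K j * ((|2 * (j : ℝ) - K| + 1) / K) + C1 * Real.exp (-c1 * K))
    (n : ℕ) (hn : 3 ≤ n) (hε : 0 < ε) (a : ℤ) (w : List Dir) (hl : w.length = n) (hs : Saw w)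
    (hq : sq w = 1) (hw : ε * n ≤ ((Fl w).card : ℝ)) :
    ∑ p ∈ adm w, |ph a (ins w p.1 p.2) - ph a w| ≤
      2 * n * (C1 * (ph a w * ((|2 * ((a - base w : ℤ) : ℝ) - (Fl w).card| + 1) / (Fl w).card)) +
        C1 * Real.exp (-(c1 * ε) * n)) := by
  have hn' : (3 : ℝ) ≤ n := by exact_mod_cast hn
  have hK : 1 ≤ (Fl w).card := by
    have : 0 < ((Fl w).card : ℝ) := lt_of_lt_of_le (by positivity) hw
    exact_mod_cast this
  have h1 : ∀ p ∈ adm w, |ph a (ins w p.1 p.2) - ph a w| ≤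
      C1 * (ph a w * ((|2 * ((a - base w : ℤ) : ℝ) - (Fl w).card| + 1) / (Fl w).card)) +
        C1 * Real.exp (-(c1 * ε) * n) := by
    intro p hp
    obtain ⟨h2, h3⟩ := hins w p.1 p.2 (by omega) hs hq hp
    have h4 := hB (Fl w).card (Fl (ins w p.1 p.2)).card (a - base w) (a - base (ins w p.1 p.2)) hK h2
      (by
        rw [show a - base (ins w p.1 p.2) - (a - base w) = -(base (ins w p.1 p.2) - base w) by ring,
          abs_neg]
        linarith)
    have h5 : Real.exp (-c1 * ((Fl w).card : ℝ)) ≤ Real.exp (-(c1 * ε) * n) := by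
      apply Real.exp_le_exp.mpr
      nlinarith
    refine h4.trans ?_
    have h6 : C1 * Real.exp (-c1 * ((Fl w).card : ℝ)) ≤ C1 * Real.exp (-(c1 * ε) * n) := by gcongr
    have h7 : ph a w = bn (Fl w).card (a - base w) := rfl
    rw [h7, ← mul_assoc]
    linarith
  have h6 : ((adm w).card : ℝ) ≤ 2 * n := by
    have : (AA w : ℝ) ≤ 2 * w.length := by exact_mod_cast AA_le w
    rw [hl] at this
    exact this
  refine (Finset.sum_le_sum h1).trans ?_
  rw [Finset.sum_const, nsmul_eq_mul]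
  have h8 : 0 ≤ C1 * (ph a w * ((|2 * ((a - base w : ℤ) : ℝ) - (Fl w).card| + 1) / (Fl w).card)) +
        C1 * Real.exp (-(c1 * ε) * n) := by
    have := ph_nonneg a w
    positivity
  gcongr

/-- the sum over the words with many flippable corners -/
lemma main (ε : ℝ) (hε : 0 < ε) (hphs : S_phs) (hent : S_ent) (hflp : S_flp) (n : ℕ) (hn : 3 ≤ n)
    (a : ℤ) : ∑ w ∈ XB n Set.univ (ε * n),
      ph a w * ((|2 * ((a - base w : ℤ) : ℝ) - (Fl w).card| + 1) / (Fl w).card) ≤
      3 / (ε * n) * (Nn n a * Real.sqrt (n * Real.log (2 * (KP n).card / Nn n a))) := by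
  have hn' : (3 : ℝ) ≤ n := by exact_mod_cast hn
  have hn0 : (0 : ℝ) < n := by linarith
  have hκ : 0 < ε * n := by positivity
  rw [(hphs n hn a).2 (ε * n) hκ]
  set X := XB n Set.univ (ε * n) with hX
  set Y := X.filter (fun w => (ar w : ℤ) = a) with hY
  have hYX : Y ⊆ X := Finset.filter_subset _ _
  have hYN : (Y.card : ℝ) ≤ Nn n a := by
    refine card_le_NB Y (fun w hw => ?_)
    obtain ⟨h1, h2⟩ := Finset.mem_filter.mp hw
    exact ⟨(mem_XB.mp h1).1, Set.mem_univ _, h2⟩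
  have hNM : Nn n a ≤ (KP n).card := Nn_le
  have hXM : (X.card : ℝ) ≤ (KP n).card := by
    have : X ⊆ KP n := fun w hw => (mem_XB.mp hw).1
    exact_mod_cast Finset.card_le_card this
  rcases Y.eq_empty_or_nonempty with h0 | h0
  · rw [h0, Finset.sum_empty]
    have : 0 ≤ Nn n a := Nn_nonneg
    positivity
  · obtain ⟨hF1, hF2⟩ := hflp n Set.univ (ε * n) hn
    have hF : Flips X Fl sw bb (fun w => (ar w : ℤ)) := hF1
    have hE := hent (List Dir) X Fl sw bb (fun w => (ar w : ℤ)) hF n hF2 Y hYX h0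
    have hY0 : 0 < (Y.card : ℝ) := by exact_mod_cast Finset.card_pos.mpr h0
    have h1 : ∑ w ∈ Y, (|2 * (Dn Fl bb w : ℝ) - (Fl w).card| + 1) / (Fl w).card ≤
        ∑ w ∈ Y, (|((Fl w).card : ℝ) - 2 * Dn Fl bb w| + 1) / (ε * n) := by
      refine Finset.sum_le_sum (fun w hw => ?_)
      have h2 : ε * n ≤ ((Fl w).card : ℝ) := (mem_XB.mp (hYX hw)).2.2
      rw [abs_sub_comm]
      gcongr
    refine h1.trans ?_
    rw [← Finset.sum_div, Finset.sum_add_distrib, Finset.sum_const, nsmul_eq_mul, mul_one]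
    have hM0 : 0 < ((KP n).card : ℝ) := by linarith
    have hN0 : 0 < Nn n a := by linarith
    have h3 : (Y.card : ℝ) * Real.sqrt (2 * n * Real.log (2 * X.card / Y.card)) ≤
        2 * (Nn n a * Real.sqrt (n * Real.log (2 * (KP n).card / Nn n a))) := by
      have h4 : Real.sqrt (2 * n * Real.log (2 * X.card / Y.card)) ≤
          2 * Real.sqrt (n * Real.log (2 * (KP n).card / Y.card)) := by
        have h5 : 2 * Real.sqrt (n * Real.log (2 * (KP n).card / Y.card)) =
            Real.sqrt (4 * (n * Real.log (2 * (KP n).card / Y.card))) := by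
          rw [Real.sqrt_mul (by norm_num : (0 : ℝ) ≤ 4), show (4 : ℝ) = 2 ^ 2 by norm_num,
            Real.sqrt_sq (by norm_num)]
        rw [h5]
        apply Real.sqrt_le_sqrt
        have h6 : Real.log (2 * X.card / Y.card) ≤ Real.log (2 * (KP n).card / Y.card) := by
          have hX0 : 0 < (X.card : ℝ) := lt_of_lt_of_le hY0 (by
            exact_mod_cast Finset.card_le_card hYX)
          apply Real.log_le_log (by positivity)
          gcongr
        have h7 : 0 ≤ Real.log (2 * (KP n).card / Y.card) := by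
          apply Real.log_nonneg
          rw [le_div_iff₀ hY0]; linarith
        have h8 : 2 * n * Real.log (2 * X.card / Y.card) ≤
            2 * n * Real.log (2 * (KP n).card / Y.card) := by gcongr
        have h9 : 0 ≤ (n : ℝ) * Real.log (2 * (KP n).card / Y.card) := by positivity
        linarith
      calc (Y.card : ℝ) * Real.sqrt (2 * n * Real.log (2 * X.card / Y.card))
          ≤ Y.card * (2 * Real.sqrt (n * Real.log (2 * (KP n).card / Y.card))) := by gcongr
        _ = 2 * (Y.card * Real.sqrt (n * Real.log (2 * (KP n).card / Y.card))) := by ring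
        _ ≤ _ := by
          gcongr 2 * ?_
          exact mono hn0.le hY0 hYN hNM
    have h10 : (Y.card : ℝ) ≤ Nn n a * Real.sqrt (n * Real.log (2 * (KP n).card / Nn n a)) := by
      have h11 : (1 : ℝ) ≤ Real.sqrt (n * Real.log (2 * (KP n).card / Nn n a)) := by
        rw [Real.one_le_sqrt]
        have h4 : (2 : ℝ) ≤ 2 * (KP n).card / Nn n a := by rw [le_div_iff₀ hN0]; linarith
        have h5 := Real.log_le_log (by norm_num) h4
        have := Real.log_two_gt_d9
        nlinarith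
      calc (Y.card : ℝ) ≤ Nn n a * 1 := by linarith
        _ ≤ _ := by gcongr
    rw [div_mul_eq_mul_div]
    gcongr
    linarith

theorem t (hins : S_ins) (hbcm : S_bcm) (hphs : S_phs) (hent : S_ent) (hflp : S_flp)
    (hfew : S_few) : S_del := by
  obtain ⟨C1, c1, hC1, hc1, hB⟩ := hbcm
  obtain ⟨ε, δ, C2, hε, hδ, hC2, hF⟩ := hfew
  refine ⟨6 * C1 / ε + 4 * C1 / (c1 * ε) + 4 * C2 / δ, min (c1 * ε / 2) (δ / 2), by positivity,
    by positivity, fun n hn hodd a => ?_⟩
  have hn' : (3 : ℝ) ≤ n := by exact_mod_cast hn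
  have hn0 : (0 : ℝ) < n := by linarith
  obtain ⟨hM0, hF⟩ := hF n hn hodd
  have hM0' : (0 : ℝ) < (KP n).card := by exact_mod_cast hM0
  set M : ℝ := ((KP n).card : ℝ) with hM
  set R : ℝ := Nn n a * Real.sqrt (n * Real.log (2 * M / Nn n a)) with hR
  have hR0 : 0 ≤ R := by
    have : 0 ≤ Nn n a := Nn_nonneg
    positivity
  set g : List Dir → ℝ := fun w =>
    ph a w * ((|2 * ((a - base w : ℤ) : ℝ) - (Fl w).card| + 1) / (Fl w).card) with hg
  have hg0 : ∀ w, 0 ≤ g w := fun w => by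
    have := ph_nonneg a w
    simp only [hg]; positivity
  have hmain : ∑ w ∈ XB n Set.univ (ε * n), g w ≤ 3 / (ε * n) * R :=
    main ε hε hphs hent hflp n hn a
  have hX : (KP n).filter (fun w => ε * n ≤ ((Fl w).card : ℝ)) = XB n Set.univ (ε * n) := by
    ext w
    rw [Finset.mem_filter, mem_XB]
    simp
  unfold DE
  rw [← Finset.sum_filter_add_sum_filter_not (KP n) (fun w => ε * n ≤ ((Fl w).card : ℝ)), hX]
  have p1 : ∑ w ∈ XB n Set.univ (ε * n),
      ∑ p ∈ adm w, |ph a (ins w p.1 p.2) - ph a w| ≤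
      6 * C1 / ε * R + 2 * C1 * (n * Real.exp (-(c1 * ε) * n)) * M := by
    calc _ ≤ ∑ w ∈ XB n Set.univ (ε * n),
          2 * n * (C1 * g w + C1 * Real.exp (-(c1 * ε) * n)) := by
          refine Finset.sum_le_sum (fun w hw => ?_)
          obtain ⟨h1, _, h2⟩ := mem_XB.mp hw
          obtain ⟨h3, h4⟩ := Finset.mem_filter.mp h1
          obtain ⟨h5, h6⟩ := mem_SW.mp h3
          exact word C1 c1 ε hC1 hc1 hins hB n hn hε a w h5 h6 h4 h2
      _ = 2 * n * C1 * (∑ w ∈ XB n Set.univ (ε * n), g w) +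
          2 * n * (C1 * Real.exp (-(c1 * ε) * n)) * (XB n Set.univ (ε * n)).card := by
          rw [← Finset.mul_sum, Finset.sum_add_distrib, ← Finset.mul_sum, Finset.sum_const,
            nsmul_eq_mul]
          ring
      _ ≤ 2 * n * C1 * (3 / (ε * n) * R) + 2 * n * (C1 * Real.exp (-(c1 * ε) * n)) * M := by
          have hsub : XB n Set.univ (ε * n) ⊆ KP n := fun w hw => (mem_XB.mp hw).1
          have hle : ((XB n Set.univ (ε * n)).card : ℝ) ≤ M := by
            rw [hM]; exact_mod_cast Finset.card_le_card hsub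
          gcongr
      _ = _ := by field_simp; ring
  have p2 : ∑ w ∈ (KP n).filter (fun w => ¬ (ε * n ≤ ((Fl w).card : ℝ))),
      ∑ p ∈ adm w, |ph a (ins w p.1 p.2) - ph a w| ≤
      2 * C2 * (n * Real.exp (-δ * n)) * M := by
    calc _ ≤ ∑ w ∈ (KP n).filter (fun w => ¬ (ε * n ≤ ((Fl w).card : ℝ))),
          2 * (n : ℝ) := by
          refine Finset.sum_le_sum (fun w hw => ?_)
          obtain ⟨h1, _⟩ := Finset.mem_filter.mp hw
          obtain ⟨h3, h4⟩ := Finset.mem_filter.mp h1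
          obtain ⟨h5, h6⟩ := mem_SW.mp h3
          have h7 : ((adm w).card : ℝ) ≤ 2 * n := by
            have : (AA w : ℝ) ≤ 2 * w.length := by exact_mod_cast AA_le w
            rw [h5] at this
            exact this
          refine (Finset.sum_le_sum (g := fun _ => (1 : ℝ)) (fun p _ =>
            abs_sub_le_one (ph_nonneg _ _) (ph_le_one _ _) (ph_nonneg _ _) (ph_le_one _ _))).trans ?_
          rw [Finset.sum_const, nsmul_eq_mul, mul_one]
          exact h7
      _ = 2 * n * (((KP n).filter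
          (fun w => ¬ (ε * n ≤ ((Fl w).card : ℝ)))).card : ℝ) := by
          rw [Finset.sum_const, nsmul_eq_mul]; ring
      _ ≤ 2 * n * (((KP n).filter (fun w => ((Fl w).card : ℝ) < ε * n)).card : ℝ) := by
          gcongr with w hw
          exact not_le.mp
      _ ≤ 2 * n * (C2 * Real.exp (-δ * n) * M) := by gcongr
      _ = _ := by ring
  have q1 : (n : ℝ) * Real.exp (-(c1 * ε) * n) ≤
      2 / (c1 * ε) * Real.exp (-min (c1 * ε / 2) (δ / 2) * n) := by
    refine (nexp (by positivity : 0 < c1 * ε) n).trans ?_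
    gcongr
    exact min_le_left _ _
  have q2 : (n : ℝ) * Real.exp (-δ * n) ≤
      2 / δ * Real.exp (-min (c1 * ε / 2) (δ / 2) * n) := by
    refine (nexp hδ n).trans ?_
    gcongr
    exact min_le_right _ _
  set E : ℝ := Real.exp (-min (c1 * ε / 2) (δ / 2) * n) with hE
  have hE0 : 0 < E := Real.exp_pos _
  calc _ ≤ (6 * C1 / ε * R + 2 * C1 * (n * Real.exp (-(c1 * ε) * n)) * M) +
        2 * C2 * (n * Real.exp (-δ * n)) * M := add_le_add p1 p2
    _ ≤ (6 * C1 / ε * R + 2 * C1 * (2 / (c1 * ε) * E) * M) + 2 * C2 * (2 / δ * E) * M := by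
        gcongr
    _ = 6 * C1 / ε * R + (4 * C1 / (c1 * ε) + 4 * C2 / δ) * (E * M) := by ring
    _ ≤ (6 * C1 / ε + 4 * C1 / (c1 * ε) + 4 * C2 / δ) * (R + E * M) := by
        have k1 : 0 ≤ 6 * C1 / ε * (E * M) := by positivity
        have k2 : 0 ≤ (4 * C1 / (c1 * ε) + 4 * C2 / δ) * R := by positivity
        nlinarith

end Pool.Agent.Q299.PT.DEL
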