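import Pool.Agent.Q91.PT.Stm3

/-!
# Project PT, job ENT: an entropy inequality for independent flips
-/

set_option autoImplicit false

namespace Pool.Agent.Q299.PT.ENT

open Finset Pool.Agent.Q91.PT
open scoped Classical

theorem t (hm : S_mgf) : S_ent := by
  intro α X F g b A hF n hn Y hYX hY
  have hN0 : 0 < (Y.card : ℝ) := by exact_mod_cast Finset.card_pos.mpr hY
  have hNM : (Y.card : ℝ) ≤ X.card := by exact_mod_cast Finset.card_le_card hYX
  set Δ : α → ℝ := fun x => ((F x).card : ℝ) - 2 * Dn F b x with hΔ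
  set T : ℝ := (∑ x ∈ Y, |Δ x|) / Y.card with hT
  have hsum : ∑ x ∈ Y, |Δ x| = Y.card * T := by
    rw [hT]; field_simp
  have hT0 : 0 ≤ T := by rw [hT]; positivity
  change ∑ x ∈ Y, |Δ x| ≤ _
  rw [hsum]
  refine mul_le_mul_of_nonneg_left ?_ hN0.le
  set Λ : ℝ := Real.log (2 * X.card / Y.card) with hΛ
  have h2 : (2 : ℝ) ≤ 2 * X.card / Y.card := by
    rw [le_div_iff₀ hN0]; linarith
  have hΛ0 : 0 < Λ := Real.log_pos (by linarith)
  rcases Nat.eq_zero_or_pos n with h0 | h0
  · have hz : T = 0 := by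
      rw [hT]
      have : ∑ x ∈ Y, |Δ x| = 0 := by
        refine Finset.sum_eq_zero (fun x hx => ?_)
        have h1 := hn x (hYX hx)
        have h3 : F x = ∅ := by
          rw [← Finset.card_eq_zero]; omega
        rw [hΔ]
        simp [Dn, h3]
      rw [this, zero_div]
    rw [hz]; positivity
  · have hn0 : (0 : ℝ) < n := by exact_mod_cast h0
    have key : ∀ θ : ℝ, 0 ≤ θ → θ * T ≤ Λ + θ ^ 2 * n / 2 := by
      intro θ hθ
      have h1 : Real.exp (θ * T) * Y.card ≤ ∑ x ∈ Y, Real.exp (θ * |Δ x|) := by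
        have h3 : ∀ x ∈ Y, Real.exp (θ * T) * (1 + (θ * |Δ x| - θ * T)) ≤ Real.exp (θ * |Δ x|) := by
          intro x _
          have h4 := Real.add_one_le_exp (θ * |Δ x| - θ * T)
          calc Real.exp (θ * T) * (1 + (θ * |Δ x| - θ * T))
              ≤ Real.exp (θ * T) * Real.exp (θ * |Δ x| - θ * T) := by
                gcongr; linarith
            _ = Real.exp (θ * |Δ x|) := by rw [← Real.exp_add]; congr 1; ring
        refine le_trans (le_of_eq ?_) (Finset.sum_le_sum h3)
        rw [← Finset.mul_sum, Finset.sum_add_distrib, Finset.sum_sub_distrib, ← Finset.mul_sum, hsum]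
        simp only [Finset.sum_const, nsmul_eq_mul, mul_one]
        ring
      have h5 : ∑ x ∈ Y, Real.exp (θ * |Δ x|) ≤
          ∑ x ∈ X, (Real.exp (θ * Δ x) + Real.exp (-θ * Δ x)) := by
        refine le_trans (Finset.sum_le_sum_of_subset_of_nonneg hYX
          (fun x _ _ => (Real.exp_pos _).le)) (Finset.sum_le_sum (fun x _ => ?_))
        rcases abs_cases (Δ x) with ⟨h, _⟩ | ⟨h, _⟩
        · rw [h]; have := Real.exp_pos (-θ * Δ x); linarith
        · rw [h, mul_neg, ← neg_mul]; have := Real.exp_pos (θ * Δ x); linarith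
      have hA := (hm α X F g b A hF).1 n θ hn
      have hB := (hm α X F g b A hF).1 n (-θ) hn
      rw [neg_sq] at hB
      have h6 : Real.exp (θ * T) * Y.card ≤ 2 * X.card * Real.exp (θ ^ 2 * n / 2) := by
        refine h1.trans (h5.trans ?_)
        rw [Finset.sum_add_distrib]
        simp only [hΔ]
        linarith
      have h7 : Real.exp (θ * T) ≤ 2 * X.card / Y.card * Real.exp (θ ^ 2 * n / 2) := by
        rw [div_mul_eq_mul_div, le_div_iff₀ hN0]; exact h6
      have h8 : Real.exp (θ * T) ≤ Real.exp (Λ + θ ^ 2 * n / 2) := by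
        rw [Real.exp_add, hΛ, Real.exp_log (by linarith)]; exact h7
      exact Real.exp_le_exp.mp h8
    have hθ : 0 < Real.sqrt (2 * Λ / n) := Real.sqrt_pos.mpr (by positivity)
    have h9 := key (Real.sqrt (2 * Λ / n)) hθ.le
    rw [Real.sq_sqrt (by positivity)] at h9
    have h10 : 2 * Λ / n * n / 2 = Λ := by field_simp
    rw [h10] at h9
    have h11 : Real.sqrt (2 * Λ / n) * Real.sqrt (2 * n * Λ) = 2 * Λ := by
      rw [← Real.sqrt_mul (by positivity)]
      rw [show 2 * Λ / n * (2 * n * Λ) = (2 * Λ) ^ 2 by field_simp]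
      exact Real.sqrt_sq (by positivity)
    by_contra hcon
    push Not at hcon
    have h12 : Real.sqrt (2 * Λ / n) * Real.sqrt (2 * n * Λ) < Real.sqrt (2 * Λ / n) * T :=
      mul_lt_mul_of_pos_left hcon hθ
    linarith

end Pool.Agent.Q299.PT.ENT
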