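import Pool.Agent.Q299.PT.DEL
import Pool.Agent.H739K.BND
import Pool.Agent.H739K.CONV
import Pool.Agent.TH508.LT.Fin2

/-!
# Project PT, job UPW: the ratio theorem at a fixed area
-/

set_option autoImplicit false

namespace Pool.Agent.Q299.PT.UPW

open Finset Pool.Agent.H976R2 Pool.Agent.H976R2.Lip Pool.Agent.H739K Pool.Agent.H924P
open Pool.Agent.Q91.PT Pool.Agent.Q299.PT.DEL
open scoped Classical

/-- growth of the number of words of polygons, with the square of the logarithm -/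
theorem bnd2 : ∃ K : ℝ, 0 ≤ K ∧ ∀ n : ℕ, 3 ≤ n → n % 2 = 1 →
    H981.mu ^ n * Real.exp (-(K * (Real.log n) ^ 2)) ≤ ((KP n).card : ℝ) ∧
    ((KP n).card : ℝ) ≤ H981.mu ^ n * Real.exp (K * (Real.log n) ^ 2) := by
  obtain ⟨K, hK, h⟩ := Pool.Agent.TH508.LT.sq_PP2
  have hmu := BNDx.mu_ge
  have hmu1 : (1 : ℝ) ≤ H981.mu := by linarith
  have hmu0 : (0 : ℝ) < H981.mu := by linarith
  refine ⟨K + 3 + H981.mu, by positivity, fun n hn hodd => ?_⟩
  obtain ⟨N, hN, hnN⟩ : ∃ N : ℕ, 2 ≤ N ∧ n = 2 * N - 1 := ⟨(n + 1) / 2, by omega, by omega⟩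
  obtain ⟨hlo, hup⟩ := h N hN
  have hcard : ((KP n).card : ℝ) = 4 * (N : ℝ) * H981.PP N := by
    have h1 := (CONV_proof N hN).2.1
    rw [hnN, ← h1]
    obtain ⟨M, rfl⟩ : ∃ M, N = M + 1 := ⟨N - 1, by omega⟩
    rw [← card_loops M, ← Nat.card_coe_set_eq]
    rfl
  have hnR : (3 : ℝ) ≤ n := by exact_mod_cast hn
  have hNR : (2 : ℝ) ≤ N := by exact_mod_cast hN
  have hNn : (N : ℝ) ≤ n := by
    have : N ≤ n := by omega
    exact_mod_cast this
  have hN2 : 4 * (N : ℝ) ≤ 4 * n := by linarith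
  have hlogn : 1 ≤ Real.log n := by
    rw [Real.le_log_iff_exp_le (by linarith)]
    have := Real.exp_one_lt_d9
    linarith
  have hlogN : 0 ≤ Real.log N := Real.log_nonneg (by linarith)
  have hlogNn : Real.log N ≤ Real.log n := Real.log_le_log (by linarith) hNn
  set T := Real.log n ^ 2 with hT
  have hT1 : 1 ≤ T := one_le_pow₀ hlogn
  have hTlog : Real.log n ≤ T := by
    calc Real.log n = Real.log n ^ 1 := (pow_one _).symm
      _ ≤ T := pow_le_pow_right₀ hlogn (by norm_num)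
  have hNT : Real.log N ^ 2 ≤ T := pow_le_pow_left₀ hlogN hlogNn 2
  have hpow : H981.mu ^ (2 * N) = H981.mu ^ n * H981.mu := by
    rw [← pow_succ]
    congr 1
    omega
  have hpn : 0 < H981.mu ^ n := pow_pos hmu0 n
  rw [hcard]
  constructor
  · have e1 : H981.mu ^ n * Real.exp (-((K + 3 + H981.mu) * T)) ≤
        H981.mu ^ (2 * N) * Real.exp (-(K * Real.log N ^ 2)) := by
      rw [hpow]
      have a1 : H981.mu ^ n ≤ H981.mu ^ n * H981.mu := le_mul_of_one_le_right hpn.le hmu1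
      have a2 : Real.exp (-((K + 3 + H981.mu) * T)) ≤ Real.exp (-(K * Real.log N ^ 2)) := by
        rw [Real.exp_le_exp]
        have : K * Real.log N ^ 2 ≤ K * T := mul_le_mul_of_nonneg_left hNT hK
        nlinarith
      exact mul_le_mul a1 a2 (Real.exp_pos _).le (by positivity)
    have e2 := e1.trans hlo
    have e3 : 0 ≤ H981.PP N := le_trans (by positivity) e2
    calc H981.mu ^ n * Real.exp (-((K + 3 + H981.mu) * T)) ≤ H981.PP N := e2
      _ ≤ 4 * (N : ℝ) * H981.PP N := le_mul_of_one_le_left e3 (by linarith)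
  · have b1 : 4 * (N : ℝ) ≤ Real.exp (3 * T) := by
      have c1 : (4 : ℝ) * n ≤ Real.exp 2 * Real.exp (Real.log n) := by
        rw [Real.exp_log (by linarith)]
        have : (4 : ℝ) ≤ Real.exp 2 := by
          have h5 : Real.exp 2 = Real.exp 1 ^ 2 := by rw [← Real.exp_nat_mul]; norm_num
          have h6 := Real.exp_one_gt_d9
          rw [h5]
          nlinarith
        exact mul_le_mul_of_nonneg_right this (by linarith)
      rw [← Real.exp_add] at c1
      refine hN2.trans (c1.trans ?_)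
      rw [Real.exp_le_exp]
      linarith
    have b2 : H981.mu ≤ Real.exp (H981.mu * T) := by
      have c2 : H981.mu * 1 ≤ H981.mu * T := mul_le_mul_of_nonneg_left hT1 hmu0.le
      have c3 := Real.add_one_le_exp (H981.mu * T)
      linarith
    have b3 : Real.exp (K * Real.log N ^ 2) ≤ Real.exp (K * T) := by
      rw [Real.exp_le_exp]
      exact mul_le_mul_of_nonneg_left hNT hK
    calc 4 * (N : ℝ) * H981.PP N ≤
          4 * (N : ℝ) * (H981.mu ^ (2 * N) * Real.exp (K * Real.log N ^ 2)) :=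
          mul_le_mul_of_nonneg_left hup (by positivity)
      _ = 4 * (N : ℝ) * (H981.mu ^ n * H981.mu * Real.exp (K * Real.log N ^ 2)) := by rw [hpow]
      _ ≤ Real.exp (3 * T) * (H981.mu ^ n * Real.exp (H981.mu * T) * Real.exp (K * T)) := by
          gcongr
      _ = H981.mu ^ n * Real.exp ((K + 3 + H981.mu) * T) := by
          rw [show (K + 3 + H981.mu) * T = 3 * T + (H981.mu * T + K * T) by ring, Real.exp_add,
            Real.exp_add]
          ring

theorem t (hloc : S_loc) (hseq : S_seq) : S_upw := by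
  obtain ⟨K, hK, hM2⟩ := bnd2
  obtain ⟨Cl, cl', hCl, hcl, hL⟩ := hloc
  obtain ⟨Cs, cs, hCs, hcs, hS⟩ := hseq
  have hmu := BNDx.mu_ge
  have hmu1 : (1 : ℝ) ≤ H981.mu := by linarith
  have hmu0 : (0 : ℝ) < H981.mu := by linarith
  set K' : ℝ := 4 * K + 1 with hK'
  have hK'1 : 1 ≤ K' := by rw [hK']; linarith
  have hK'0 : 0 < K' := by linarith
  set C' : ℝ := 5 * Cl + 100 with hC'
  have hC'0 : 0 < C' := by positivity
  refine ⟨Cs * Real.sqrt C' * K', min (cl' / (20 * K')) ((cs / (C' * K' ^ 2)) ^ 2), by positivity,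
    by positivity, fun n hn hodd a hN hδ => ?_⟩
  have hn' : (3 : ℝ) ≤ n := by exact_mod_cast hn
  have hn0 : (0 : ℝ) < n := by linarith
  have hNM : Nn n a ≤ (KP n).card := Nn_le
  have hM0 : (0 : ℝ) < (KP n).card := by linarith
  have hlogn : 1 ≤ Real.log n := by
    rw [Real.le_log_iff_exp_le (by linarith)]
    have := Real.exp_one_lt_d9
    linarith
  have hlogMN : 0 ≤ Real.log ((KP n).card / Nn n a) := by
    apply Real.log_nonneg
    rw [le_div_iff₀ hN]; linarith
  have hlsq : 1 ≤ Real.log n ^ 2 := one_le_pow₀ hlogn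
  set h : ℝ := hl n a with hh
  have hhe : h = Real.log n ^ 2 + Real.log ((KP n).card / Nn n a) := rfl
  have hh1 : 1 ≤ h := by rw [hhe]; linarith
  have hh0 : 0 < h := by linarith
  have hh3 : h ≤ h ^ 3 := by
    calc h = h ^ 1 := (pow_one _).symm
      _ ≤ h ^ 3 := pow_le_pow_right₀ hh1 (by norm_num)
  set H : ℝ := K' * h with hH
  have hH1 : 1 ≤ H := by rw [hH]; nlinarith
  have hH0 : 0 < H := by linarith
  have hHn : 20 * H ≤ cl' * n := by
    have h1 : h ≤ cl' / (20 * K') * n := hh3.trans (hδ.trans (by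
      gcongr; exact min_le_left _ _))
    have h2 : 20 * K' * h ≤ 20 * K' * (cl' / (20 * K') * n) := by gcongr
    have h3 : 20 * K' * (cl' / (20 * K') * n) = cl' * n := by field_simp
    rw [hH]; linarith
  set x : ℝ := h ^ 3 / n with hx
  have hx0 : 0 < x := by positivity
  have hxδ : x ≤ (cs / (C' * K' ^ 2)) ^ 2 := by
    rw [hx, div_le_iff₀ hn0]
    exact hδ.trans (by gcongr; exact min_le_right _ _)
  set δ' : ℝ := C' * Real.sqrt (H / n) with hδ'
  have hδ'0 : 0 < δ' := by positivity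
  have hδH : δ' * H ≤ C' * K' ^ 2 * Real.sqrt x := by
    have h1 : Real.sqrt (H / n) ≤ K' * Real.sqrt (h / n) := by
      have h2 : K' * Real.sqrt (h / n) = Real.sqrt (K' ^ 2 * (h / n)) := by
        rw [Real.sqrt_mul (sq_nonneg _), Real.sqrt_sq hK'0.le]
      rw [h2]
      apply Real.sqrt_le_sqrt
      rw [hH, mul_div_assoc]
      gcongr
      nlinarith
    have h3 : Real.sqrt x = h * Real.sqrt (h / n) := by
      rw [hx, show h ^ 3 / n = h ^ 2 * (h / n) by ring, Real.sqrt_mul (sq_nonneg _),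
        Real.sqrt_sq hh0.le]
    calc δ' * H ≤ C' * (K' * Real.sqrt (h / n)) * H := by
          rw [hδ']; gcongr
      _ = C' * K' ^ 2 * (h * Real.sqrt (h / n)) := by rw [hH]; ring
      _ = _ := by rw [h3]
  have hδHc : δ' * H ≤ cs := by
    have h1 : Real.sqrt x ≤ cs / (C' * K' ^ 2) := by
      rw [show cs / (C' * K' ^ 2) = Real.sqrt ((cs / (C' * K' ^ 2)) ^ 2) by
        rw [Real.sqrt_sq (by positivity)]]
      exact Real.sqrt_le_sqrt hxδ
    calc δ' * H ≤ C' * K' ^ 2 * Real.sqrt x := hδH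
      _ ≤ C' * K' ^ 2 * (cs / (C' * K' ^ 2)) := by gcongr
      _ = cs := by field_simp
  have h100 : 100 ≤ δ' * n := by
    have h1 : 1 ≤ Real.sqrt (H / n) * n := by
      have h2 : Real.sqrt (H / n) * n = Real.sqrt (H * n) := by
        have : Real.sqrt (H / n) * n = Real.sqrt (H / n) * Real.sqrt ((n : ℝ) ^ 2) := by
          rw [Real.sqrt_sq hn0.le]
        rw [this, ← Real.sqrt_mul (by positivity)]
        congr 1; field_simp
      rw [h2, Real.one_le_sqrt]
      nlinarith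
    have h3 : C' * 1 ≤ C' * (Real.sqrt (H / n) * n) := by gcongr
    rw [hδ', mul_assoc]
    rw [hC'] at h3 ⊢
    linarith
  -- the window
  have hwin : ∀ m : ℕ, n ≤ 2 * m → m ≤ 2 * n → m % 2 = n % 2 →
      3 ≤ m ∧ m % 2 = 1 ∧ ((KP m).card : ℝ) / H981.mu ^ m ≤ Real.exp H := by
    intro m h1 h2 h3
    have hm3 : 3 ≤ m := by omega
    have hmodd : m % 2 = 1 := by omega
    refine ⟨hm3, hmodd, ?_⟩
    have hm' : (3 : ℝ) ≤ m := by exact_mod_cast hm3
    have h4 := (hM2 m hm3 hmodd).2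
    rw [div_le_iff₀ (by positivity), mul_comm]
    refine h4.trans ?_
    gcongr
    have h5 : Real.log m ≤ 2 * Real.log n := by
      have h6 : (m : ℝ) ≤ (n : ℝ) ^ 2 := by
        have h7 : (m : ℝ) ≤ 2 * n := by exact_mod_cast h2
        nlinarith
      have h8 := Real.log_le_log (by linarith) h6
      rw [Real.log_pow] at h8
      push_cast at h8
      exact h8
    have h9 : 0 ≤ Real.log m := Real.log_nonneg (by linarith)
    have h10 : Real.log m ^ 2 ≤ 4 * Real.log n ^ 2 := by nlinarith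
    have h11 : K * Real.log m ^ 2 ≤ K * (4 * Real.log n ^ 2) := by gcongr
    rw [hH, hK', hhe]
    nlinarith
  set b : ℕ → ℝ := fun m => Nn m a / H981.mu ^ m with hb
  have hb0 : ∀ m, 0 ≤ b m := fun m => div_nonneg Nn_nonneg (by positivity)
  have hratio : b (n + 2) / b n = Nn (n + 2) a / (H981.mu ^ 2 * Nn n a) := by
    simp only [hb]
    rw [pow_add]
    field_simp
  have c1 : ∀ m : ℕ, n ≤ 2 * m → m ≤ 2 * n → m % 2 = n % 2 → 0 ≤ b m ∧ b m ≤ Real.exp H := by
    intro m h1 h2 h3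
    refine ⟨hb0 m, le_trans ?_ (hwin m h1 h2 h3).2.2⟩
    simp only [hb]
    gcongr
    exact Nn_le
  have c2 : Real.exp (-H) ≤ b n := by
    have h1 := (hM2 n hn hodd).1
    have h2 : Nn n a = (KP n).card * Real.exp (-Real.log ((KP n).card / Nn n a)) := by
      rw [Real.exp_neg, Real.exp_log (by positivity)]
      field_simp
    simp only [hb]
    rw [le_div_iff₀ (by positivity), h2]
    calc Real.exp (-H) * H981.mu ^ n
        ≤ Real.exp (-(K * Real.log n ^ 2) + -Real.log ((KP n).card / Nn n a)) * H981.mu ^ n := by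
          gcongr
          rw [hH, hK', hhe]
          nlinarith [mul_nonneg hK hlogMN, mul_nonneg hK (sq_nonneg (Real.log n))]
      _ = (H981.mu ^ n * Real.exp (-(K * Real.log n ^ 2))) *
            Real.exp (-Real.log ((KP n).card / Nn n a)) := by
          rw [Real.exp_add]; ring
      _ ≤ _ := by gcongr
  have c3 : ∀ m : ℕ, n ≤ 2 * m → m + 4 ≤ 2 * n → m % 2 = n % 2 →
      b (m + 2) ^ 2 ≤ b m * b (m + 4) + δ' * (b m + b (m + 2) + Real.exp (-8 * H)) ^ 2 := by
    intro m h1 h2 h3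
    obtain ⟨hm3, hmodd, hKm⟩ := hwin m h1 (by omega) h3
    have hm' : (3 : ℝ) ≤ m := by exact_mod_cast hm3
    have hm0 : (0 : ℝ) < m := by linarith
    have hnm : (n : ℝ) ≤ 2 * m := by exact_mod_cast h1
    have h4 := hL m hm3 hmodd a (10 * H) (by linarith) (by nlinarith)
    have hp : (0 : ℝ) < H981.mu ^ m := by positivity
    have e1 : b (m + 2) ^ 2 = Nn (m + 2) a ^ 2 / (H981.mu ^ (m + 2)) ^ 2 := by
      simp only [hb]; rw [div_pow]
    have e2 : b m * b (m + 4) = Nn m a * Nn (m + 4) a / (H981.mu ^ (m + 2)) ^ 2 := by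
      simp only [hb]
      rw [div_mul_div_comm]
      congr 1
      rw [← pow_add, ← pow_mul]; congr 1; ring
    have e3 : Real.sqrt (10 * H / m) ≤ 5 * Real.sqrt (H / n) := by
      have h5 : 5 * Real.sqrt (H / n) = Real.sqrt (25 * (H / n)) := by
        rw [Real.sqrt_mul (by norm_num : (0 : ℝ) ≤ 25), show (25 : ℝ) = 5 ^ 2 by norm_num,
          Real.sqrt_sq (by norm_num)]
      rw [h5]
      apply Real.sqrt_le_sqrt
      rw [div_le_iff₀ hm0]
      have h6 : 25 * (H / n) * m = 25 * H * (m / n) := by ring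
      rw [h6]
      have h7 : (1 : ℝ) / 2 ≤ m / n := by
        rw [le_div_iff₀ hn0]; linarith
      have h8 : 25 * H * (1 / 2) ≤ 25 * H * (m / n) := by gcongr
      linarith
    have e4 : Cl * Real.sqrt (10 * H / m) ≤ δ' := by
      rw [hδ', hC']
      calc Cl * Real.sqrt (10 * H / m) ≤ Cl * (5 * Real.sqrt (H / n)) := by gcongr
        _ ≤ _ := by
          have : 0 ≤ Real.sqrt (H / n) := Real.sqrt_nonneg _
          nlinarith
    have hpm2 : (0 : ℝ) < H981.mu ^ (m + 2) := by positivity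
    have hmm2 : H981.mu ^ m ≤ H981.mu ^ (m + 2) := pow_le_pow_right₀ hmu1 (by omega)
    have e5 : (Nn m a + Nn (m + 2) a + Real.exp (-(10 * H)) * (KP m).card) / H981.mu ^ (m + 2) ≤
        b m + b (m + 2) + Real.exp (-8 * H) := by
      have f1 : Nn m a / H981.mu ^ (m + 2) ≤ b m := by
        simp only [hb]
        exact div_le_div_of_nonneg_left Nn_nonneg hp hmm2
      have f2 : Nn (m + 2) a / H981.mu ^ (m + 2) = b (m + 2) := rfl
      have f3 : Real.exp (-(10 * H)) * (KP m).card / H981.mu ^ (m + 2) ≤ Real.exp (-8 * H) := by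
        calc Real.exp (-(10 * H)) * (KP m).card / H981.mu ^ (m + 2)
            ≤ Real.exp (-(10 * H)) * (KP m).card / H981.mu ^ m := by gcongr
          _ = Real.exp (-(10 * H)) * (((KP m).card : ℝ) / H981.mu ^ m) := by ring
          _ ≤ Real.exp (-(10 * H)) * Real.exp H := by gcongr
          _ = Real.exp (-(10 * H) + H) := by rw [Real.exp_add]
          _ ≤ Real.exp (-8 * H) := by
            apply Real.exp_le_exp.mpr; linarith
      rw [add_div, add_div, f2]
      linarith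
    have e6 : 0 ≤ (Nn m a + Nn (m + 2) a + Real.exp (-(10 * H)) * (KP m).card) /
        H981.mu ^ (m + 2) := by
      have g1 : 0 ≤ Nn m a := Nn_nonneg
      have g2 : 0 ≤ Nn (m + 2) a := Nn_nonneg
      positivity
    rw [e1, e2]
    calc Nn (m + 2) a ^ 2 / (H981.mu ^ (m + 2)) ^ 2
        ≤ (Nn m a * Nn (m + 4) a + Cl * Real.sqrt (10 * H / m) *
            (Nn m a + Nn (m + 2) a + Real.exp (-(10 * H)) * (KP m).card) ^ 2) /
            (H981.mu ^ (m + 2)) ^ 2 := by gcongr
      _ = Nn m a * Nn (m + 4) a / (H981.mu ^ (m + 2)) ^ 2 + Cl * Real.sqrt (10 * H / m) *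
          ((Nn m a + Nn (m + 2) a + Real.exp (-(10 * H)) * (KP m).card) /
            H981.mu ^ (m + 2)) ^ 2 := by
          rw [div_pow]; ring
      _ ≤ _ := by gcongr
  have hfin := hS n H δ' b (by omega) hH1 hδ'0 hδHc h100 c1 c2 c3
  rw [hratio] at hfin
  refine hfin.trans ?_
  have hq : Real.sqrt (Real.sqrt x) = x ^ (1 / 4 : ℝ) := by
    rw [Real.sqrt_eq_rpow, Real.sqrt_eq_rpow, ← Real.rpow_mul hx0.le]
    norm_num
  have h1 : Real.sqrt (δ' * H) ≤ Real.sqrt C' * K' * x ^ (1 / 4 : ℝ) := by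
    calc Real.sqrt (δ' * H) ≤ Real.sqrt (C' * K' ^ 2 * Real.sqrt x) := Real.sqrt_le_sqrt hδH
      _ = Real.sqrt C' * K' * x ^ (1 / 4 : ℝ) := by
          rw [Real.sqrt_mul (by positivity), Real.sqrt_mul hC'0.le, Real.sqrt_sq hK'0.le, hq]
  calc Cs * Real.sqrt (δ' * H) ≤ Cs * (Real.sqrt C' * K' * x ^ (1 / 4 : ℝ)) := by gcongr
    _ = _ := by ring

end Pool.Agent.Q299.PT.UPW
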